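import Pool.Agent.J6H54.CG.Stm

/-!
# CG-28: the coefficients of the conjugacy growth series in terms of the model
-/

set_option autoImplicit false

namespace Pool.Agent.J6H22.CG28

open Finset
open Pool.Agent.J6H54.CG

/-- labels of the classes: `x` for `(x, 0)`, `(m, r)` for `(r, m)` and for its inverse -/
abbrev Lab : Type := ℤ ⊕ ((Σ _ : ℕ, ℕ) ⊕ (Σ _ : ℕ, ℕ))

/-- the point of a label -/
def pt (k : ℕ) : Lab → Pt
  | Sum.inl x => ((x : ℚ), 0)
  | Sum.inr (Sum.inl a) => ((a.2 : ℚ), (a.1 : ℤ))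
  | Sum.inr (Sum.inr a) => inv k ((a.2 : ℚ), (a.1 : ℤ))

/-- the length of a label -/
noncomputable def wt (k : ℕ) (T : Finset Pt) : Lab → ℕ
  | Sum.inl x => clen k T ((x : ℚ), 0)
  | Sum.inr (Sum.inl a) => clen k T ((a.2 : ℚ), (a.1 : ℤ))
  | Sum.inr (Sum.inr a) => clen k T ((a.2 : ℚ), (a.1 : ℤ))

/-- admissible labels -/
def ok (k : ℕ) : Lab → Prop
  | Sum.inl x => x ∈ Z0 k
  | Sum.inr (Sum.inl a) => 1 ≤ a.1 ∧ a.2 ∈ Rep k a.1
  | Sum.inr (Sum.inr a) => 1 ≤ a.1 ∧ a.2 ∈ Rep k a.1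

/-- the exponent of a label -/
def ex : Lab → ℕ
  | Sum.inl _ => 0
  | Sum.inr (Sum.inl a) => a.1
  | Sum.inr (Sum.inr a) => a.1

/-- every point is conjugate to the point of an admissible label -/
theorem exists_label (h15 : S_cj) (h16 : S_class) (h24 : S_class0) {k : ℕ} {T : Finset Pt}
    (hT : Gen k T) (p : Pt) (hp : KA k p.1) :
    ∃ l : Lab, ok k l ∧ Cj k p (pt k l) ∧ clen k T p = wt k T l := by
  obtain ⟨_, _, _, _, c5, c6, _, c8, _⟩ := h15 k T hT
  have hk := hT.two_le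
  rcases lt_trichotomy p.2 0 with h | h | h
  · obtain ⟨m, hm⟩ : ∃ m : ℕ, -p.2 = m := ⟨(-p.2).toNat, (Int.toNat_of_nonneg (by omega)).symm⟩
    have h1 : 1 ≤ m := by omega
    obtain ⟨r, hr, hc⟩ := (h16 k hk m h1).1 (inv k p) (ka_inv hk hp) hm
    have hc' := c5 _ _ hc
    rw [inv_inv' hk] at hc'
    refine ⟨Sum.inr (Sum.inr ⟨m, r⟩), ⟨h1, hr⟩, hc', ?_⟩
    rw [c6 _ _ hc']
    exact c8 _ (ka_nat r)
  · obtain ⟨x, n⟩ := p
    simp only at h hp
    subst h
    obtain ⟨y, hy, hc⟩ := (h24 k hk).1 x hp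
    exact ⟨Sum.inl y, hy, hc, c6 _ _ hc⟩
  · obtain ⟨m, hm⟩ : ∃ m : ℕ, p.2 = m := ⟨p.2.toNat, (Int.toNat_of_nonneg (by omega)).symm⟩
    have h1 : 1 ≤ m := by omega
    obtain ⟨r, hr, hc⟩ := (h16 k hk m h1).1 p hp hm
    exact ⟨Sum.inr (Sum.inl ⟨m, r⟩), ⟨h1, hr⟩, hc, c6 _ _ hc⟩

/-- CG-28 -/
theorem m28 (h15 : S_cj) (h16 : S_class) (h24 : S_class0) : S_count := by
  classical
  intro k G _ f S T hM hT hfin hcs hcj
  obtain ⟨_, c2, c3, c4, _, c6, _, _, _⟩ := h15 k T hT
  have hk := hT.two_le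
  -- representatives
  choose rep hrep using fun c : ConjClasses G => ConjClasses.exists_rep c
  have hcl : ∀ (c : ConjClasses G) (n : ℕ), c ∈ cset S n ↔ clen k T (f (rep c)) = n := by
    intro c n
    rw [← hcs (rep c) n]
    have : ConjClasses.mk (rep c) = c := hrep c
    rw [this]
  have hka : ∀ g : G, KA k (f g).1 := fun g => (hM.ran (f g)).1 ⟨g, rfl⟩
  -- the finite sets of the classes of length less than `N`
  let U : ℕ → Finset (ConjClasses G) := fun N => (range N).biUnion fun n => (hfin n).toFinset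
  have hU : ∀ (N : ℕ) (c : ConjClasses G), c ∈ U N ↔ clen k T (f (rep c)) < N := by
    intro N c
    simp only [U, Finset.mem_biUnion, Finset.mem_range, Set.Finite.mem_toFinset]
    constructor
    · rintro ⟨n, hn, hc⟩
      rw [(hcl c n).1 hc]
      exact hn
    · intro h
      exact ⟨_, h, (hcl c _).2 rfl⟩
  have hsum : ∀ (N : ℕ) (z : ℝ), ∑ n ∈ range N, ((cset S n).ncard : ℝ) * z ^ n =
      ∑ c ∈ U N, z ^ clen k T (f (rep c)) := by
    intro N z
    have hd : ((range N : Finset ℕ) : Set ℕ).PairwiseDisjoint fun n => (hfin n).toFinset := by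
      intro m _ n _ hmn
      rw [Function.onFun, Finset.disjoint_left]
      intro c hc hc'
      rw [Set.Finite.mem_toFinset] at hc hc'
      exact hmn (((hcl c m).1 hc).symm.trans ((hcl c n).1 hc'))
    simp only [U]
    rw [Finset.sum_biUnion hd]
    apply Finset.sum_congr rfl
    intro n _
    have h1 : ∑ c ∈ (hfin n).toFinset, z ^ clen k T (f (rep c)) =
        ∑ c ∈ (hfin n).toFinset, z ^ n := by
      apply Finset.sum_congr rfl
      intro c hc
      rw [Set.Finite.mem_toFinset] at hc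
      rw [(hcl c n).1 hc]
    rw [h1, Finset.sum_const, nsmul_eq_mul, Set.ncard_eq_toFinset_card (cset S n) (hfin n)]
  refine ⟨fun N => ?_, fun M => ?_⟩
  · -- labels
    choose lab lab1 lab2 lab3 using fun c : ConjClasses G =>
      exists_label h15 h16 h24 hT (f (rep c)) (hka (rep c))
    have hinj : Function.Injective lab := by
      intro c c' h
      have h1 := lab2 c
      rw [h] at h1
      have h2 := c3 _ _ _ h1 (c2 _ _ (lab2 c'))
      have h3 := (hcj _ _).2 h2
      have h4 : ConjClasses.mk (rep c) = c := hrep c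
      have h5 : ConjClasses.mk (rep c') = c' := hrep c'
      rw [h4, h5] at h3
      exact h3
    let I : Finset Lab := (U N).image lab
    have hok : ∀ l ∈ I, ok k l := by
      intro l hl
      obtain ⟨c, _, rfl⟩ := Finset.mem_image.1 hl
      exact lab1 c
    refine ⟨I.sup ex, I.toLeft, fun x hx => ?_, fun z hz => ?_⟩
    · exact hok _ (Finset.mem_toLeft.1 hx)
    · let P : Finset (Σ _ : ℕ, ℕ) := (Icc 1 (I.sup ex)).sigma fun m => Rep k m
      have hsub : I ⊆ I.toLeft.disjSum (P.disjSum P) := by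
        intro l hl
        have h1 := hok l hl
        have h2 : ex l ≤ I.sup ex := Finset.le_sup hl
        rcases l with x | a | a
        · exact Finset.inl_mem_disjSum.2 (Finset.mem_toLeft.2 hl)
        · apply Finset.inr_mem_disjSum.2
          apply Finset.inl_mem_disjSum.2
          exact Finset.mem_sigma.2 ⟨Finset.mem_Icc.2 ⟨h1.1, h2⟩, h1.2⟩
        · apply Finset.inr_mem_disjSum.2
          apply Finset.inr_mem_disjSum.2
          exact Finset.mem_sigma.2 ⟨Finset.mem_Icc.2 ⟨h1.1, h2⟩, h1.2⟩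
      have hF : ∑ m ∈ Icc 1 (I.sup ex), F k T m z =
          ∑ a ∈ P, z ^ clen k T ((a.2 : ℚ), (a.1 : ℤ)) := by
        rw [Finset.sum_sigma]
        rfl
      rw [hsum, hF]
      calc ∑ c ∈ U N, z ^ clen k T (f (rep c)) = ∑ c ∈ U N, z ^ wt k T (lab c) := by
            apply Finset.sum_congr rfl
            intro c _
            rw [lab3 c]
        _ = ∑ l ∈ I, z ^ wt k T l := by
            rw [Finset.sum_image (fun c _ c' _ h => hinj h)]
        _ ≤ ∑ l ∈ I.toLeft.disjSum (P.disjSum P), z ^ wt k T l :=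
            Finset.sum_le_sum_of_subset_of_nonneg hsub fun _ _ _ => (pow_pos hz _).le
        _ = _ := by
            rw [Finset.sum_disjSum, Finset.sum_disjSum, two_mul]
            rfl
  · -- classes of the points `(r, m)`
    let P : Finset (Σ _ : ℕ, ℕ) := (Icc 1 M).sigma fun m => Rep k m
    have hex : ∀ a : (Σ _ : ℕ, ℕ), ∃ g : G, f g = ((a.2 : ℚ), (a.1 : ℤ)) := fun a =>
      (hM.ran ((a.2 : ℚ), (a.1 : ℤ))).2 (ka_nat a.2)
    choose gg hgg using hex
    let cc : (Σ _ : ℕ, ℕ) → ConjClasses G := fun a => ConjClasses.mk (gg a)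
    have hcc : ∀ a, clen k T (f (rep (cc a))) = clen k T ((a.2 : ℚ), (a.1 : ℤ)) := by
      intro a
      have h1 : ConjClasses.mk (rep (cc a)) = ConjClasses.mk (gg a) := hrep (cc a)
      rw [c6 _ _ ((hcj _ _).1 h1), hgg a]
    have hinj : ∀ a ∈ P, ∀ b ∈ P, cc a = cc b → a = b := by
      intro a ha b hb h
      have h1 := (hcj _ _).1 h
      rw [hgg a, hgg b] at h1
      have h2 := c4 _ _ h1
      obtain ⟨m, r⟩ := a
      obtain ⟨m', r'⟩ := b
      simp only [Nat.cast_inj] at h1 h2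
      subst h2
      have ha' := Finset.mem_sigma.1 ha
      have hb' := Finset.mem_sigma.1 hb
      have h3 := (h16 k hk m (Finset.mem_Icc.1 ha'.1).1).2.1 r ha'.2 r' hb'.2 h1
      rw [h3]
    refine ⟨(P.sup fun a => clen k T ((a.2 : ℚ), (a.1 : ℤ))) + 1, fun z hz => ?_⟩
    have hF : ∑ m ∈ Icc 1 M, F k T m z =
        ∑ a ∈ P, z ^ clen k T ((a.2 : ℚ), (a.1 : ℤ)) := by
      rw [Finset.sum_sigma]
      rfl
    rw [hsum, hF]
    calc ∑ a ∈ P, z ^ clen k T ((a.2 : ℚ), (a.1 : ℤ))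
        = ∑ a ∈ P, z ^ clen k T (f (rep (cc a))) := by
          apply Finset.sum_congr rfl
          intro a _
          rw [hcc a]
      _ = ∑ c ∈ P.image cc, z ^ clen k T (f (rep c)) := by
          rw [Finset.sum_image hinj]
      _ ≤ _ := by
          apply Finset.sum_le_sum_of_subset_of_nonneg
          · intro c hc
            obtain ⟨a, ha, rfl⟩ := Finset.mem_image.1 hc
            rw [hU, hcc a]
            exact Nat.lt_succ_of_le
              (Finset.le_sup (f := fun a : (Σ _ : ℕ, ℕ) => clen k T ((a.2 : ℚ), (a.1 : ℤ))) ha)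
          · intro _ _ _
            exact (pow_pos hz _).le

end Pool.Agent.J6H22.CG28
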